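import Mathlib

/-!
# QUD (MP_5b0138_an): real lemmas for the monotonicity of `G` (helper63)
-/

set_option autoImplicit false

namespace Pool.Agent.QUD.H63

open Real Set

theorem nonneg_of_deriv {f f' : ℝ → ℝ} {a : ℝ} (hd : ∀ x, HasDerivAt f (f' x) x) (h0 : f 0 = 0)
    (hp : ∀ x, 0 < x → x < a → 0 ≤ f' x) : ∀ x, 0 ≤ x → x ≤ a → 0 ≤ f x := by
  intro x hx hxa
  have hm : MonotoneOn f (Icc 0 a) := by
    apply monotoneOn_of_deriv_nonneg (convex_Icc 0 a)
    · exact fun y _ => (hd y).continuousAt.continuousWithinAt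
    · exact fun y _ => (hd y).differentiableAt.differentiableWithinAt
    · intro y hy
      rw [interior_Icc] at hy
      rw [(hd y).deriv]
      exact hp y hy.1 hy.2
  have := hm (left_mem_Icc.2 (hx.trans hxa)) ⟨hx, hxa⟩ hx
  rwa [h0] at this

/-- `sin x - x cos x ≥ 0` on `[0, π]` -/
theorem sin_sub_nonneg : ∀ x : ℝ, 0 ≤ x → x ≤ π → 0 ≤ sin x - x * cos x := by
  apply nonneg_of_deriv (f' := fun x => x * sin x)
  · intro x
    have h1 := (hasDerivAt_sin x).sub ((hasDerivAt_id x).mul (hasDerivAt_cos x))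
    have e : cos x - (1 * cos x + id x * -sin x) = x * sin x := by
      simp only [id]; ring
    rw [← e]
    exact h1
  · simp
  · intro x h0 h1
    exact mul_nonneg h0.le (sin_nonneg_of_nonneg_of_le_pi h0.le h1.le)

theorem sin_sub_pos (x : ℝ) (h0 : 0 < x) (h1 : x < π) : 0 < sin x - x * cos x := by
  have h : ∀ y, 0 < y → y < π / 2 → 0 < sin y - y * cos y := by
    intro y hy hy2
    have := lt_tan hy hy2
    have hc : 0 < cos y := cos_pos_of_mem_Ioo ⟨by linarith, hy2⟩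
    rw [tan_eq_sin_div_cos, lt_div_iff₀ hc] at this
    linarith
  rcases lt_or_ge x (π / 2) with h2 | h2
  · exact h x h0 h2
  · have hs : 0 < sin x := sin_pos_of_pos_of_lt_pi h0 h1
    have hc : cos x ≤ 0 := cos_nonpos_of_pi_div_two_le_of_le h2 (by linarith)
    nlinarith

/-- `nf = E' sin^4` -/
noncomputable def nf (x : ℝ) : ℝ := x + 2 * x * cos x ^ 2 - 3 * sin x * cos x

/-- `E` -/
noncomputable def Ef (x : ℝ) : ℝ := (sin x - x * cos x) / sin x ^ 3

theorem nf_deriv (x : ℝ) : HasDerivAt nf (4 * sin x * (sin x - x * cos x)) x := by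
  have h1 := (hasDerivAt_id x).add (((hasDerivAt_id x).const_mul 2).mul ((hasDerivAt_cos x).pow 2))
  have h2 := ((hasDerivAt_sin x).const_mul 3).mul (hasDerivAt_cos x)
  have h3 := h1.sub h2
  have e : 1 + (2 * 1 * cos x ^ 2 + 2 * id x * (↑(2 : ℕ) * cos x ^ (2 - 1) * -sin x))
      - (3 * cos x * cos x + 3 * sin x * -sin x) = 4 * sin x * (sin x - x * cos x) := by
    simp only [id]
    have := sin_sq_add_cos_sq x
    push_cast
    linear_combination (1 : ℝ) * this * (-1)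
  rw [← e]
  exact h3

theorem nf_nonneg : ∀ x : ℝ, 0 ≤ x → x ≤ π → 0 ≤ nf x := by
  apply nonneg_of_deriv (f' := fun x => 4 * sin x * (sin x - x * cos x)) nf_deriv
  · simp [nf]
  · intro x h0 h1
    exact mul_nonneg (mul_nonneg (by norm_num) (sin_nonneg_of_nonneg_of_le_pi h0.le h1.le))
      (sin_sub_nonneg x h0.le h1.le)

theorem Ef_deriv (x : ℝ) (h : sin x ≠ 0) : HasDerivAt Ef (nf x / sin x ^ 4) x := by
  have h1 := (hasDerivAt_sin x).sub ((hasDerivAt_id x).mul (hasDerivAt_cos x))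
  have h2 := (hasDerivAt_sin x).pow 3
  have h3 := h1.div h2 (pow_ne_zero 3 h)
  have e : ((cos x - (1 * cos x + id x * -sin x)) * sin x ^ 3 - (sin x - id x * cos x) *
      (↑(3 : ℕ) * sin x ^ (3 - 1) * cos x)) / (sin x ^ 3) ^ 2 = nf x / sin x ^ 4 := by
    have hs : sin x ^ 2 = 1 - cos x ^ 2 := by
      have := sin_sq_add_cos_sq x
      linarith
    rw [div_eq_div_iff (by positivity) (by positivity)]
    unfold nf
    simp only [id]
    push_cast
    have e1 : (cos x - (1 * cos x + x * -sin x)) * sin x ^ 3 - (sin x - x * cos x) *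
      (3 * sin x ^ (3 - 1) * cos x) = sin x ^ 2 * (x * sin x ^ 2 - 3 * (sin x - x * cos x) * cos x) := by
      ring
    rw [e1, hs]
    have e2 : x * (1 - cos x ^ 2) - 3 * (sin x - x * cos x) * cos x
        = x + 2 * x * cos x ^ 2 - 3 * sin x * cos x := by ring
    rw [e2]
    have e3 : sin x ^ 4 = (1 - cos x ^ 2) ^ 2 := by rw [← hs]; ring
    have e4 : (sin x ^ 3) ^ 2 = (1 - cos x ^ 2) ^ 3 := by rw [← hs]; ring
    rw [e3, e4]
    ring
  rw [← e]
  exact h3

/-- `3 sin² x ≤ x² (3 - sin² x)` -/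
theorem sin_bound3 : ∀ x : ℝ, 0 ≤ x → x ≤ π / 2 → 0 ≤ 3 * x ^ 2 - (3 + x ^ 2) * sin x ^ 2 := by
  have hs2 : ∀ x : ℝ, HasDerivAt (fun y : ℝ => sin (2 * y)) (2 * cos (2 * x)) x := by
    intro x
    have := ((hasDerivAt_id x).const_mul (2 : ℝ)).sin
    have e : cos (2 * id x) * (2 * 1) = 2 * cos (2 * x) := by simp only [id]; ring
    rw [← e]; exact this
  have hc2 : ∀ x : ℝ, HasDerivAt (fun y : ℝ => cos (2 * y)) (-(2 * sin (2 * x))) x := by
    intro x
    have := ((hasDerivAt_id x).const_mul (2 : ℝ)).cos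
    have e : -sin (2 * id x) * (2 * 1) = -(2 * sin (2 * x)) := by simp only [id]; ring
    rw [← e]; exact this
  have hid : ∀ x : ℝ, HasDerivAt (fun y : ℝ => y) 1 x := fun x => hasDerivAt_id x
  have hsq : ∀ x : ℝ, HasDerivAt (fun y : ℝ => y ^ 2) (2 * x) x := by
    intro x
    have := hasDerivAt_pow 2 x
    simpa using this
  -- second derivative
  have h3 : ∀ x : ℝ, 0 ≤ x → x ≤ π / 2 →
      0 ≤ 5 - 5 * cos (2 * x) - 4 * x * sin (2 * x) - 2 * x ^ 2 * cos (2 * x) := by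
    apply nonneg_of_deriv (f' := fun x => 6 * sin (2 * x) - 12 * x * cos (2 * x)
      + 4 * x ^ 2 * sin (2 * x))
    · intro x
      have h := (((hasDerivAt_const x (5 : ℝ)).sub ((hc2 x).const_mul 5)).sub
        (((hid x).const_mul 4).mul (hs2 x))).sub (((hsq x).const_mul 2).mul (hc2 x))
      have e : 0 - 5 * -(2 * sin (2 * x)) - (4 * 1 * sin (2 * x) + 4 * x * (2 * cos (2 * x)))
          - (2 * (2 * x) * cos (2 * x) + 2 * x ^ 2 * -(2 * sin (2 * x)))
          = 6 * sin (2 * x) - 12 * x * cos (2 * x) + 4 * x ^ 2 * sin (2 * x) := by ring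
      rw [← e]; exact h
    · simp
    · intro x h0 h1
      have e1 := sin_sub_nonneg (2 * x) (by linarith) (by linarith)
      have e2 := sin_nonneg_of_nonneg_of_le_pi (x := 2 * x) (by linarith) (by linarith)
      nlinarith [mul_nonneg (sq_nonneg x) e2]
  have h2 : ∀ x : ℝ, 0 ≤ x → x ≤ π / 2 →
      0 ≤ 5 * x + x * cos (2 * x) - (3 + x ^ 2) * sin (2 * x) := by
    apply nonneg_of_deriv (f' := fun x => 5 - 5 * cos (2 * x) - 4 * x * sin (2 * x)
      - 2 * x ^ 2 * cos (2 * x))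
    · intro x
      have h := (((hid x).const_mul 5).add ((hid x).mul (hc2 x))).sub
        (((hsq x).const_add 3).mul (hs2 x))
      have e : 5 * 1 + (1 * cos (2 * x) + x * -(2 * sin (2 * x)))
          - (2 * x * sin (2 * x) + (3 + x ^ 2) * (2 * cos (2 * x)))
          = 5 - 5 * cos (2 * x) - 4 * x * sin (2 * x) - 2 * x ^ 2 * cos (2 * x) := by ring
      rw [← e]; exact h
    · simp
    · intro x h0 h1
      exact h3 x h0.le h1.le
  have h1 : ∀ x : ℝ, 0 ≤ x → x ≤ π / 2 →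
      0 ≤ 3 * x ^ 2 - (3 + x ^ 2) * ((1 - cos (2 * x)) / 2) := by
    apply nonneg_of_deriv (f' := fun x => 5 * x + x * cos (2 * x) - (3 + x ^ 2) * sin (2 * x))
    · intro x
      have h := ((hsq x).const_mul 3).sub (((hsq x).const_add 3).mul
        (((hc2 x).const_sub 1).div_const 2))
      have e : 3 * (2 * x) - (2 * x * ((1 - cos (2 * x)) / 2) + (3 + x ^ 2) *
          (-(-(2 * sin (2 * x))) / 2)) = 5 * x + x * cos (2 * x) - (3 + x ^ 2) * sin (2 * x) := by
        ring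
      rw [← e]; exact h
    · simp
    · intro x h0 h1
      exact h2 x h0.le h1.le
  intro x h0 h1'
  have := h1 x h0 h1'
  have e : sin x ^ 2 = (1 - cos (2 * x)) / 2 := by
    rw [cos_two_mul]
    have := sin_sq_add_cos_sq x
    linarith
  rw [e]
  exact this

/-- `x E' - 5 E` -/
noncomputable def Jf (x : ℝ) : ℝ := x * (nf x / sin x ^ 4) - 5 * Ef x

theorem Jf_deriv (x : ℝ) (h : sin x ≠ 0) :
    HasDerivAt Jf (-(4 * cos x * (3 * x ^ 2 - (3 + x ^ 2) * sin x ^ 2) / sin x ^ 5)) x := by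
  have h1 := (nf_deriv x).div ((hasDerivAt_sin x).pow 4) (pow_ne_zero 4 h)
  have h2 := ((hasDerivAt_id x).mul h1).sub ((Ef_deriv x h).const_mul 5)
  have e : 1 * (nf x / sin x ^ 4) + id x * ((4 * sin x * (sin x - x * cos x) * sin x ^ 4 -
      nf x * (↑(4 : ℕ) * sin x ^ (4 - 1) * cos x)) / (sin x ^ 4) ^ 2) - 5 * (nf x / sin x ^ 4)
      = -(4 * cos x * (3 * x ^ 2 - (3 + x ^ 2) * sin x ^ 2) / sin x ^ 5) := by
    have hs : cos x ^ 2 = 1 - sin x ^ 2 := by
      have := sin_sq_add_cos_sq x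
      linarith
    have hs3 : cos x ^ 3 = cos x * (1 - sin x ^ 2) := by rw [← hs]; ring
    unfold nf
    simp only [id]
    push_cast
    field_simp
    ring_nf
    simp only [hs, hs3]
    ring
  rw [← e]
  exact h2

theorem Jf_anti : AntitoneOn Jf (Ioo 0 (π / 2)) := by
  have hs : ∀ x ∈ Ioo 0 (π / 2), 0 < sin x := fun x hx =>
    sin_pos_of_pos_of_lt_pi hx.1 (by linarith [hx.2, pi_pos])
  apply antitoneOn_of_deriv_nonpos (convex_Ioo _ _)
  · exact fun x hx => (Jf_deriv x (hs x hx).ne').continuousAt.continuousWithinAt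
  · intro x hx
    rw [interior_Ioo] at hx
    exact (Jf_deriv x (hs x hx).ne').differentiableAt.differentiableWithinAt
  · intro x hx
    rw [interior_Ioo] at hx
    rw [(Jf_deriv x (hs x hx).ne').deriv]
    have h1 := sin_bound3 x hx.1.le hx.2.le
    have h2 : 0 ≤ cos x := cos_nonneg_of_neg_pi_div_two_le_of_le (by linarith [hx.1, pi_pos]) hx.2.le
    have h3 := hs x hx
    have : 0 ≤ 4 * cos x * (3 * x ^ 2 - (3 + x ^ 2) * sin x ^ 2) / sin x ^ 5 := by positivity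
    linarith

theorem Ef_mono : MonotoneOn Ef (Ioo 0 π) := by
  have hs : ∀ x ∈ Ioo 0 π, 0 < sin x := fun x hx => sin_pos_of_pos_of_lt_pi hx.1 hx.2
  apply monotoneOn_of_deriv_nonneg (convex_Ioo _ _)
  · exact fun x hx => (Ef_deriv x (hs x hx).ne').continuousAt.continuousWithinAt
  · intro x hx
    rw [interior_Ioo] at hx
    exact (Ef_deriv x (hs x hx).ne').differentiableAt.differentiableWithinAt
  · intro x hx
    rw [interior_Ioo] at hx
    rw [(Ef_deriv x (hs x hx).ne').deriv]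
    have h1 := nf_nonneg x hx.1.le hx.2.le
    have h3 := hs x hx
    positivity

/-- (A1): for `0 < x ≤ φ < π/2` and `V ≥ 5` -/
theorem A1 (x φ V : ℝ) (hx : 0 < x) (hxφ : x ≤ φ) (hφ : φ < π / 2) (hV : 5 ≤ V) :
    φ * (nf φ / sin φ ^ 4) - V * Ef φ ≤ x * (nf x / sin x ^ 4) - V * Ef x := by
  have h1 := Jf_anti ⟨hx, by linarith⟩ ⟨by linarith, hφ⟩ hxφ
  have h2 := Ef_mono (a := x) (b := φ) ⟨hx, by linarith [pi_pos]⟩ ⟨by linarith, by linarith [pi_pos]⟩ hxφ
  unfold Jf at h1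
  nlinarith

/-- (B), polynomial form -/
theorem B1 (y s c : ℝ) (hy : 0 < y) (hy2 : y < π / 2) (hs : 0 < s) (hc : 0 < c)
    (hys : y * s ≤ c) (hcs : π / 4 ≤ y → s ≤ c) :
    0 ≤ 2 * c * s ^ 3 * (π - 4 * y) + 6 * c ^ 3 * s * (π - 4 * y) +
      c ^ 2 * s ^ 2 * (4 * (π + 2 * y) * (π - y) - 12) + 6 * (π + 2 * y) * (π - y) * c ^ 4
      - 2 * y * (π + 2 * y) * s ^ 4 := by
  have hp := pi_gt_d2
  have hp2 := pi_lt_d2
  have hq : π ^ 2 ≤ (π + 2 * y) * (π - y) := by nlinarith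
  have hpp : (9.8 : ℝ) < π ^ 2 := by nlinarith
  have hc2 : 0 < c ^ 2 := by positivity
  have hs2 : 0 < s ^ 2 := by positivity
  rcases le_or_gt y (π / 4) with h | h
  · have e1 : 2 * y * s ^ 4 * (π - 4 * y) ≤ 2 * c * s ^ 3 * (π - 4 * y) := by
      have : 0 ≤ (c - y * s) * (2 * s ^ 3 * (π - 4 * y)) :=
        mul_nonneg (by linarith) (mul_nonneg (by positivity) (by linarith))
      nlinarith
    have e2 : y ^ 2 * s ^ 2 ≤ c ^ 2 := by
      have := mul_self_le_mul_self (by positivity : (0 : ℝ) ≤ y * s) hys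
      nlinarith
    have e3 : 12 * y ^ 2 * s ^ 4 ≤ 12 * c ^ 2 * s ^ 2 := by nlinarith
    have e4 : 0 ≤ 6 * c ^ 3 * s * (π - 4 * y) :=
      mul_nonneg (by positivity) (by linarith)
    have e5 : c ^ 2 * s ^ 2 * (4 * π ^ 2 - 12) ≤
        c ^ 2 * s ^ 2 * (4 * (π + 2 * y) * (π - y) - 12) := by
      apply mul_le_mul_of_nonneg_left _ (by positivity)
      linarith
    have e6 : 0 ≤ 6 * (π + 2 * y) * (π - y) * c ^ 4 := by
      have : 0 ≤ (π + 2 * y) * (π - y) := by nlinarith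
      nlinarith [pow_nonneg hc.le 4, mul_nonneg this (pow_nonneg hc.le 4)]
    have e7 : c ^ 2 * s ^ 2 * (39.2 - 12) ≤ c ^ 2 * s ^ 2 * (4 * π ^ 2 - 12) := by
      apply mul_le_mul_of_nonneg_left _ (by positivity)
      linarith
    have e8 : 0 ≤ c ^ 2 * s ^ 2 := by positivity
    nlinarith
  · have hcs' := hcs h.le
    have a1 : -π ≤ π - 4 * y := by linarith
    have e1 : 2 * c * s ^ 3 * (-π) ≤ 2 * c * s ^ 3 * (π - 4 * y) :=
      mul_le_mul_of_nonneg_left a1 (by positivity)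
    have e2 : 6 * c ^ 3 * s * (-π) ≤ 6 * c ^ 3 * s * (π - 4 * y) :=
      mul_le_mul_of_nonneg_left a1 (by positivity)
    have e5 : c ^ 2 * s ^ 2 * (4 * π ^ 2 - 12) ≤
        c ^ 2 * s ^ 2 * (4 * (π + 2 * y) * (π - y) - 12) := by
      apply mul_le_mul_of_nonneg_left _ (by positivity)
      linarith
    have e6 : 6 * π ^ 2 * c ^ 4 ≤ 6 * (π + 2 * y) * (π - y) * c ^ 4 := by
      apply mul_le_mul_of_nonneg_right _ (by positivity)
      linarith
    have e7 : 2 * y * (π + 2 * y) * s ^ 4 ≤ 2 * π ^ 2 * s ^ 4 := by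
      apply mul_le_mul_of_nonneg_right _ (by positivity)
      nlinarith
    have f1 : s ^ 2 ≤ c ^ 2 := pow_le_pow_left₀ hs.le hcs' 2
    have f2 : s ^ 4 ≤ c ^ 2 * s ^ 2 := by nlinarith
    have f3 : c * s ^ 3 ≤ c ^ 2 * s ^ 2 := by
      have : 0 ≤ (c - s) * (c * s ^ 2) := mul_nonneg (by linarith) (by positivity)
      nlinarith
    have f4 : c ^ 3 * s ≤ c ^ 4 := by
      have : 0 ≤ (c - s) * c ^ 3 := mul_nonneg (by linarith) (by positivity)
      nlinarith
    have f5 : 0 ≤ c ^ 2 * s ^ 2 := by positivity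
    have f6 : 0 ≤ c ^ 4 := by positivity
    have g1 : 2 * π * (c * s ^ 3) ≤ 2 * π * (c ^ 2 * s ^ 2) :=
      mul_le_mul_of_nonneg_left f3 (by positivity)
    have g2 : 6 * π * (c ^ 3 * s) ≤ 6 * π * c ^ 4 := mul_le_mul_of_nonneg_left f4 (by positivity)
    have g3 : 2 * π ^ 2 * s ^ 4 ≤ 2 * π ^ 2 * (c ^ 2 * s ^ 2) :=
      mul_le_mul_of_nonneg_left f2 (by positivity)
    have g4 : 0 ≤ c ^ 2 * s ^ 2 * (2 * π ^ 2 - 12 - 2 * π) := mul_nonneg f5 (by nlinarith)
    have g5 : 0 ≤ c ^ 4 * (6 * π ^ 2 - 6 * π) := mul_nonneg f6 (by nlinarith)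
    nlinarith

end Pool.Agent.QUD.H63
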