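import Pool.Agent.Helper63_QUD.Gm1

/-!
# QUD (MP_5b0138_an): monotonicity of `G` (helper63)
-/

set_option autoImplicit false

namespace Pool.Agent.QUD.H63

open Real Set

/-- `f`, up to nothing: `FA t = t³ c / (2 s³)` -/
noncomputable def ff (t : ℝ) : ℝ := t ^ 3 * (-cos (t * (π / 2))) / (2 * sin (t * (π / 2)) ^ 3)

/-- the factor of the derivative -/
noncomputable def dd (t : ℝ) : ℝ :=
  6 * (-cos (t * (π / 2))) * sin (t * (π / 2)) + π * t * (1 + 2 * cos (t * (π / 2)) ^ 2)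

/-- derivative of `f` -/
noncomputable def f1 (t : ℝ) : ℝ := t ^ 2 * dd t / (4 * sin (t * (π / 2)) ^ 4)

/-- `q² - w²` -/
noncomputable def DD (ψ t : ℝ) : ℝ := t ^ 2 / sin (t * ψ) ^ 2 - t ^ 2 / sin (t * (π / 2)) ^ 2

/-- minus the derivative of `q² - w²` -/
noncomputable def PP (ψ t : ℝ) : ℝ := 2 * t * (Ef (t * (π / 2)) - Ef (t * ψ))

/-- second derivative of `f`, divided by `f1`, times `t`, minus 1 -/
noncomputable def VV (t : ℝ) : ℝ :=
  1 + t * (4 * π * sin (t * (π / 2)) ^ 2 + 2 * π ^ 2 * t * (-cos (t * (π / 2))) * sin (t * (π / 2)))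
    / dd t + 2 * π * t * (-cos (t * (π / 2))) / sin (t * (π / 2))

theorem sin_t (a t : ℝ) : HasDerivAt (fun t => sin (t * a)) (cos (t * a) * a) t := by
  have h := ((hasDerivAt_id t).mul_const a).sin
  have e : cos (id t * a) * (1 * a) = cos (t * a) * a := by simp only [id]; ring
  rw [← e]; exact h

theorem cos_t (a t : ℝ) : HasDerivAt (fun t => cos (t * a)) (-sin (t * a) * a) t := by
  have h := ((hasDerivAt_id t).mul_const a).cos
  have e : -sin (id t * a) * (1 * a) = -sin (t * a) * a := by simp only [id]; ring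
  rw [← e]; exact h

theorem ff_deriv (t : ℝ) (h : sin (t * (π / 2)) ≠ 0) : HasDerivAt ff (f1 t) t := by
  have h1 := (hasDerivAt_pow 3 t).mul (cos_t (π / 2) t).neg
  have h2 := ((sin_t (π / 2) t).pow 3).const_mul 2
  have h3 := h1.div h2 (mul_ne_zero two_ne_zero (pow_ne_zero 3 h))
  have hc : cos (t * (π / 2)) ^ 2 = 1 - sin (t * (π / 2)) ^ 2 := by
    have := sin_sq_add_cos_sq (t * (π / 2))
    linarith
  have hcc : cos (t * (π / 2)) ^ 3 = cos (t * (π / 2)) * (1 - sin (t * (π / 2)) ^ 2) := by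
    rw [← hc]; ring
  refine HasDerivAt.congr_deriv h3 ?_
  simp only [Pi.mul_apply, Pi.neg_apply, Pi.pow_apply, Pi.sub_apply]
  unfold f1 dd
  set s := sin (t * (π / 2)) with hs
  set c := cos (t * (π / 2)) with hcdef
  push_cast
  rw [div_eq_div_iff (pow_ne_zero 2 (mul_ne_zero two_ne_zero (pow_ne_zero 3 h)))
    (mul_ne_zero four_ne_zero (pow_ne_zero 4 h))]
  have e1 : (3 * t ^ (3 - 1) * -c + t ^ 3 * -(-s * (π / 2))) * (2 * s ^ 3) -
      t ^ 3 * -c * (2 * (3 * s ^ (3 - 1) * (c * (π / 2))))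
      = s ^ 2 * t ^ 2 * (-6 * c * s + π * t * s ^ 2 + 3 * π * t * c ^ 2) := by ring
  have e0 : (3 * t ^ (3 - 1) * -c + t ^ 3 * -(-s * (π / 2))) * (2 * s ^ 3) -
      (t ^ 3 * -c) * (2 * (3 * s ^ (3 - 1) * (c * (π / 2))))
      = s ^ 2 * t ^ 2 * (-6 * c * s + π * t * s ^ 2 + 3 * π * t * c ^ 2) := by ring
  have e2 : 6 * -c * s + π * t * (1 + 2 * c ^ 2) = -6 * c * s + π * t * s ^ 2 + 3 * π * t * c ^ 2 := by
    rw [hc]; ring
  rw [e2]
  have key : ∀ X : ℝ, (s ^ 2 * t ^ 2 * X) * (4 * s ^ 4) = t ^ 2 * X * (2 * s ^ 3) ^ 2 := by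
    intro X; ring
  calc _ = (s ^ 2 * t ^ 2 * (-6 * c * s + π * t * s ^ 2 + 3 * π * t * c ^ 2)) * (4 * s ^ 4) := by
        ring
    _ = _ := by rw [key]

theorem sq_deriv (a t : ℝ) (h : sin (t * a) ≠ 0) :
    HasDerivAt (fun t => t ^ 2 / sin (t * a) ^ 2) (2 * t * Ef (t * a)) t := by
  have h1 := (hasDerivAt_pow 2 t).div ((sin_t a t).pow 2) (pow_ne_zero 2 h)
  refine HasDerivAt.congr_deriv h1 ?_
  simp only [Pi.mul_apply, Pi.neg_apply, Pi.pow_apply, Pi.sub_apply]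
  unfold Ef
  set s := sin (t * a) with hs
  set c := cos (t * a) with hcdef
  push_cast
  field_simp

theorem DD_deriv (ψ t : ℝ) (h : sin (t * (π / 2)) ≠ 0) (h' : sin (t * ψ) ≠ 0) :
    HasDerivAt (DD ψ) (-PP ψ t) t := by
  have h1 := (sq_deriv ψ t h').sub (sq_deriv (π / 2) t h)
  refine HasDerivAt.congr_deriv h1 ?_
  unfold PP
  ring

theorem Ef_t (a t : ℝ) (h : sin (t * a) ≠ 0) :
    HasDerivAt (fun t => Ef (t * a)) (nf (t * a) / sin (t * a) ^ 4 * a) t := by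
  have h1 : HasDerivAt (fun t : ℝ => t * a) a t := by
    have := (hasDerivAt_id t).mul_const a
    simpa using this
  exact (Ef_deriv (t * a) h).comp t h1

theorem PP_deriv (ψ t : ℝ) (h : sin (t * (π / 2)) ≠ 0) (h' : sin (t * ψ) ≠ 0) :
    HasDerivAt (PP ψ) (2 * ((Ef (t * (π / 2)) - Ef (t * ψ)) +
      ((t * (π / 2)) * (nf (t * (π / 2)) / sin (t * (π / 2)) ^ 4)
        - (t * ψ) * (nf (t * ψ) / sin (t * ψ) ^ 4)))) t := by
  have h0 : HasDerivAt (fun t : ℝ => 2 * t) 2 t := by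
    have := (hasDerivAt_id t).const_mul (2 : ℝ)
    simpa using this
  have h1 := h0.mul ((Ef_t (π / 2) t h).sub (Ef_t ψ t h'))
  refine HasDerivAt.congr_deriv h1 ?_
  simp only [Pi.mul_apply, Pi.neg_apply, Pi.pow_apply, Pi.sub_apply]
  ring

theorem dd_deriv (t : ℝ) : HasDerivAt dd (4 * π * sin (t * (π / 2)) ^ 2 +
    2 * π ^ 2 * t * (-cos (t * (π / 2))) * sin (t * (π / 2))) t := by
  have hid : HasDerivAt (fun t : ℝ => π * t) π t := by
    have := (hasDerivAt_id t).const_mul π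
    simpa using this
  have h1 := ((cos_t (π / 2) t).neg.const_mul 6).mul (sin_t (π / 2) t)
  have h2 := hid.mul ((((cos_t (π / 2) t).pow 2).const_mul 2).const_add 1)
  have h3 := h1.add h2
  refine HasDerivAt.congr_deriv h3 ?_
  simp only [Pi.mul_apply, Pi.neg_apply, Pi.pow_apply, Pi.sub_apply]
  have hc := sin_sq_add_cos_sq (t * (π / 2))
  set s := sin (t * (π / 2)) with hs
  set c := cos (t * (π / 2)) with hcdef
  push_cast
  linear_combination (-π) * hc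

theorem f1_deriv (t : ℝ) (h : sin (t * (π / 2)) ≠ 0) (hd : dd t ≠ 0) (ht : t ≠ 0) :
    HasDerivAt f1 (f1 t * (VV t + 1) / t) t := by
  have h1 := ((hasDerivAt_pow 2 t).mul (dd_deriv t)).div
    (((sin_t (π / 2) t).pow 4).const_mul 4) (mul_ne_zero four_ne_zero (pow_ne_zero 4 h))
  refine HasDerivAt.congr_deriv h1 ?_
  simp only [Pi.mul_apply, Pi.neg_apply, Pi.pow_apply, Pi.sub_apply]
  unfold f1 VV
  set s := sin (t * (π / 2)) with hs
  set c := cos (t * (π / 2)) with hcdef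
  push_cast
  field_simp
  ring

/-- positivity facts on `(1, b]` -/
theorem facts (t : ℝ) (h1 : 1 < t) (h2 : t < 2) :
    0 < sin (t * (π / 2)) ∧ 0 < -cos (t * (π / 2)) := by
  have hp := pi_pos
  constructor
  · apply sin_pos_of_pos_of_lt_pi <;> nlinarith
  · have := cos_neg_of_pi_div_two_lt_of_lt (x := t * (π / 2)) (by nlinarith) (by nlinarith)
    linarith

theorem dd_pos (t : ℝ) (h1 : 1 < t) (h2 : t < 2) : 0 < dd t := by
  obtain ⟨hs, hc⟩ := facts t h1 h2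
  unfold dd
  have hp := pi_pos
  have : 0 < π * t * (1 + 2 * cos (t * (π / 2)) ^ 2) := by positivity
  nlinarith [mul_pos hc hs]

theorem f1_pos (t : ℝ) (h1 : 1 < t) (h2 : t < 2) : 0 < f1 t := by
  obtain ⟨hs, hc⟩ := facts t h1 h2
  have := dd_pos t h1 h2
  unfold f1
  positivity

/-- `V ≥ 5` -/
theorem VV_ge (t : ℝ) (h1 : 1 < t) (h2 : t < 2) : 5 ≤ VV t := by
  obtain ⟨hs, hc⟩ := facts t h1 h2
  have hd := dd_pos t h1 h2
  have hp := pi_gt_d2
  have hsc := sin_sq_add_cos_sq (t * (π / 2))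
  unfold VV
  have key : 0 ≤ sin (t * (π / 2)) * (t * (4 * π * sin (t * (π / 2)) ^ 2 + 2 * π ^ 2 * t *
      (-cos (t * (π / 2))) * sin (t * (π / 2)))) + (2 * π * t * (-cos (t * (π / 2))) -
        4 * sin (t * (π / 2))) * dd t := by
    unfold dd
    set s := sin (t * (π / 2)) with hsdef
    obtain ⟨c, hcdef⟩ : ∃ c, c = -cos (t * (π / 2)) := ⟨_, rfl⟩
    have hcc : cos (t * (π / 2)) = -c := by rw [hcdef]; ring
    rw [hcc] at hsc ⊢
    have hc' : 0 < c := by rw [hcdef]; exact hc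
    have e : s * (t * (4 * π * s ^ 2 + 2 * π ^ 2 * t * (-(-c)) * s)) + (2 * π * t * (-(-c)) - 4 * s) *
        (6 * (-(-c)) * s + π * t * (1 + 2 * (-c) ^ 2))
        = c * (4 * (π * t) ^ 2 * s ^ 2 + 6 * (π * t) ^ 2 * c ^ 2 - 24 * s ^ 2) := by
      have h1c : (1 : ℝ) = s ^ 2 + c ^ 2 := by linarith [hsc]
      have : (1 + 2 * (-c) ^ 2 : ℝ) = s ^ 2 + 3 * c ^ 2 := by rw [h1c]; ring
      rw [this]
      ring
    rw [e]
    apply mul_nonneg hc'.le
    have h3 : 3.14 ≤ π * t := by nlinarith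
    have h4 : 9.8 ≤ (π * t) ^ 2 := by nlinarith
    have h5 : 0 ≤ s ^ 2 * (4 * (π * t) ^ 2 - 24) := mul_nonneg (by positivity) (by nlinarith)
    have h6 : 0 ≤ 6 * (π * t) ^ 2 * c ^ 2 := by positivity
    nlinarith
  have hds : 0 < dd t * sin (t * (π / 2)) := mul_pos hd hs
  have e : (1 + t * (4 * π * sin (t * (π / 2)) ^ 2 + 2 * π ^ 2 * t * (-cos (t * (π / 2))) *
      sin (t * (π / 2))) / dd t + 2 * π * t * (-cos (t * (π / 2))) / sin (t * (π / 2))) - 5
      = (sin (t * (π / 2)) * (t * (4 * π * sin (t * (π / 2)) ^ 2 + 2 * π ^ 2 * t *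
      (-cos (t * (π / 2))) * sin (t * (π / 2)))) + (2 * π * t * (-cos (t * (π / 2))) -
        4 * sin (t * (π / 2))) * dd t) / (dd t * sin (t * (π / 2))) := by
    have hs' := hs.ne'
    have hd' := hd.ne'
    generalize sin (t * (π / 2)) = s at hs' ⊢
    generalize cos (t * (π / 2)) = c
    generalize dd t = d at hd' ⊢
    field_simp
    ring
  have : 0 ≤ (1 + t * (4 * π * sin (t * (π / 2)) ^ 2 + 2 * π ^ 2 * t * (-cos (t * (π / 2))) *
      sin (t * (π / 2))) / dd t + 2 * π * t * (-cos (t * (π / 2))) / sin (t * (π / 2))) - 5 := by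
    rw [e]; positivity
  linarith

/-- (B) -/
theorem B2 (t : ℝ) (h1 : 1 < t) (h2 : t < 2) :
    (1 + 2 * cos (t * (π / 2)) ^ 2) * (π * t - π) + 3 * sin (t * (π / 2)) * (-cos (t * (π / 2)))
      ≤ VV t * (-cos (t * (π / 2))) * sin (t * (π / 2)) := by
  obtain ⟨hs, hc⟩ := facts t h1 h2
  have hd := dd_pos t h1 h2
  have hp := pi_gt_d2
  have hpp := pi_pos
  have hsc := sin_sq_add_cos_sq (t * (π / 2))
  obtain ⟨y, hy⟩ : ∃ y, y = π * (t - 1) / 2 := ⟨_, rfl⟩
  have hy0 : 0 < y := by rw [hy]; apply div_pos (mul_pos hpp (by linarith)) two_pos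
  have hy2 : y < π / 2 := by rw [hy]; nlinarith
  have hty : t * (π / 2) = y + π / 2 := by rw [hy]; ring
  have hsy : sin (t * (π / 2)) = cos y := by rw [hty, sin_add_pi_div_two]
  have hcy : -cos (t * (π / 2)) = sin y := by rw [hty, cos_add_pi_div_two]; ring
  have hys : y * cos y ≤ sin y := by
    have := lt_tan hy0 hy2
    have hcp : 0 < cos y := by rw [← hsy]; exact hs
    rw [tan_eq_sin_div_cos, lt_div_iff₀ hcp] at this
    exact this.le
  have hcs : π / 4 ≤ y → cos y ≤ sin y := by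
    intro h
    have e : cos y = sin (π / 2 - y) := by rw [sin_pi_div_two_sub]
    rw [e]
    apply sin_le_sin_of_le_of_le_pi_div_two <;> linarith
  have hB := B1 y (cos y) (sin y) hy0 hy2 (by rw [← hsy]; exact hs) (by rw [← hcy]; exact hc) hys hcs
  have hτ : π * t = π + 2 * y := by rw [hy]; ring
  unfold VV
  have hcc : cos (t * (π / 2)) = -sin y := by rw [← hcy]; ring
  have hdd : dd t = 6 * sin y * cos y + (π + 2 * y) * (1 + 2 * sin y ^ 2) := by
    unfold dd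
    rw [hcc, hsy, hτ]
    ring
  have hdpos : 0 < dd t := hd
  have hcp : 0 < cos y := by rw [← hsy]; exact hs
  have hsp : 0 < sin y := by rw [← hcy]; exact hc
  have h1c : (1 : ℝ) = cos y ^ 2 + sin y ^ 2 := by
    have := sin_sq_add_cos_sq y
    linarith
  have e3 : (1 + 2 * sin y ^ 2 : ℝ) = cos y ^ 2 + 3 * sin y ^ 2 := by rw [h1c]; ring
  rw [hcc, hsy]
  have e0 : (1 + t * (4 * π * cos y ^ 2 + 2 * π ^ 2 * t * -(-sin y) * cos y) / dd t +
      2 * π * t * -(-sin y) / cos y) * -(-sin y) * cos y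
      - ((1 + 2 * (-sin y) ^ 2) * (π * t - π) + 3 * cos y * -(-sin y))
      = (sin y * cos y * (4 * (π * t) * cos y ^ 2 + 2 * (π * t) ^ 2 * sin y * cos y) +
        (2 * (π * t) * sin y ^ 2 - 2 * sin y * cos y - (1 + 2 * sin y ^ 2) * (π * t - π)) * dd t)
          / dd t := by
    field_simp
    ring
  have e4 : sin y * cos y * (4 * (π * t) * cos y ^ 2 + 2 * (π * t) ^ 2 * sin y * cos y) +
        (2 * (π * t) * sin y ^ 2 - 2 * sin y * cos y - (1 + 2 * sin y ^ 2) * (π * t - π)) * dd t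
      = 2 * sin y * cos y ^ 3 * (π - 4 * y) + 6 * sin y ^ 3 * cos y * (π - 4 * y) +
      sin y ^ 2 * cos y ^ 2 * (4 * (π + 2 * y) * (π - y) - 12)
        + 6 * (π + 2 * y) * (π - y) * sin y ^ 4 - 2 * y * (π + 2 * y) * cos y ^ 4 := by
    rw [hdd, hτ, e3]
    ring
  have : 0 ≤ (sin y * cos y * (4 * (π * t) * cos y ^ 2 + 2 * (π * t) ^ 2 * sin y * cos y) +
        (2 * (π * t) * sin y ^ 2 - 2 * sin y * cos y - (1 + 2 * sin y ^ 2) * (π * t - π)) * dd t)
          / dd t := by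
    rw [e4]
    exact div_nonneg hB hdpos.le
  linarith

/-- the main inequality: `θE'(θ) - xE'(x) ≤ V (E(θ) - E(x))` -/
theorem mainI (ψ t : ℝ) (h1 : 1 < t) (h2 : t < 2) (hψ : 0 < ψ) (hψt : t * ψ ≤ π - t * (π / 2)) :
    (t * (π / 2)) * (nf (t * (π / 2)) / sin (t * (π / 2)) ^ 4)
        - (t * ψ) * (nf (t * ψ) / sin (t * ψ) ^ 4)
      ≤ VV t * (Ef (t * (π / 2)) - Ef (t * ψ)) := by
  obtain ⟨hs, hc⟩ := facts t h1 h2
  have hpp := pi_pos
  obtain ⟨φ, hφ⟩ : ∃ φ, φ = π - t * (π / 2) := ⟨_, rfl⟩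
  have hφ2 : φ < π / 2 := by rw [hφ]; nlinarith
  have hA := A1 (t * ψ) φ (VV t) (by positivity) (by rw [hφ]; exact hψt) hφ2 (VV_ge t h1 h2)
  have hB := B2 t h1 h2
  have hsφ : sin φ = sin (t * (π / 2)) := by rw [hφ, sin_pi_sub]
  have hcφ : cos φ = -cos (t * (π / 2)) := by rw [hφ, cos_pi_sub]
  have hC : (t * (π / 2)) * (nf (t * (π / 2)) / sin (t * (π / 2)) ^ 4)
        - φ * (nf φ / sin φ ^ 4) ≤ VV t * (Ef (t * (π / 2)) - Ef φ) := by
    have hθ : t * (π / 2) = π - φ := by rw [hφ]; ring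
    unfold nf Ef
    rw [hsφ, hcφ, hφ]
    set s := sin (t * (π / 2)) with hsdef
    obtain ⟨c, hcdef⟩ : ∃ c, c = -cos (t * (π / 2)) := ⟨_, rfl⟩
    have hcc : cos (t * (π / 2)) = -c := by rw [hcdef]; ring
    rw [hcc] at hB ⊢
    have e1 : VV t * ((s - t * (π / 2) * -c) / s ^ 3 - (s - (π - t * (π / 2)) * -(-c)) / s ^ 3)
        = π * (VV t * c * s) / s ^ 4 := by
      field_simp
      ring
    have e2 : t * (π / 2) * ((t * (π / 2) + 2 * (t * (π / 2)) * (-c) ^ 2 - 3 * s * -c) / s ^ 4) -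
        (π - t * (π / 2)) * ((π - t * (π / 2) + 2 * (π - t * (π / 2)) * (-(-c)) ^ 2
          - 3 * s * -(-c)) / s ^ 4)
        = π * ((1 + 2 * (-c) ^ 2) * (π * t - π) + 3 * s * -(-c)) / s ^ 4 := by
      field_simp
      ring
    rw [e1, e2]
    apply div_le_div_of_nonneg_right _ (by positivity)
    apply mul_le_mul_of_nonneg_left _ hpp.le
    have : VV t * c * s = VV t * (-(-c)) * s := by ring
    rw [this]
    exact hB
  linarith

end Pool.Agent.QUD.H63
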