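import Pool.Agent.Helper63_QUD.Gm2

/-!
# QUD (MP_5b0138_an): monotonicity of `G` (helper63), pure form
-/

set_option autoImplicit false

namespace Pool.Agent.QUD.H63

open Real Set

/-- `ρ` -/
noncomputable def rr (ψ t : ℝ) : ℝ := PP ψ t / f1 t

theorem sinψ_pos (ψ b t : ℝ) (hψ : 0 < ψ) (h1 : 1 < t) (hb : b * ψ = π - b * (π / 2)) (hb2 : b < 2)
    (htb : t ≤ b) : 0 < t * ψ ∧ t * ψ ≤ π - t * (π / 2) ∧ t * ψ < π / 2 ∧ 0 < sin (t * ψ) := by
  have hp := pi_pos
  have h2 : t * ψ ≤ π - t * (π / 2) := by nlinarith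
  have h3 : 0 < t * ψ := by positivity
  have h4 : t * ψ < π / 2 := by nlinarith
  exact ⟨h3, h2, h4, sin_pos_of_pos_of_lt_pi h3 (by linarith)⟩

theorem rr_deriv (ψ t : ℝ) (h1 : 1 < t) (h2 : t < 2) (h' : sin (t * ψ) ≠ 0) :
    HasDerivAt (rr ψ) (2 * (((t * (π / 2)) * (nf (t * (π / 2)) / sin (t * (π / 2)) ^ 4)
        - (t * ψ) * (nf (t * ψ) / sin (t * ψ) ^ 4))
        - VV t * (Ef (t * (π / 2)) - Ef (t * ψ))) / f1 t) t := by
  obtain ⟨hs, hc⟩ := facts t h1 h2
  have hd := dd_pos t h1 h2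
  have hf := f1_pos t h1 h2
  have h3 := (PP_deriv ψ t hs.ne' h').div (f1_deriv t hs.ne' hd.ne' (by linarith)) hf.ne'
  refine HasDerivAt.congr_deriv h3 ?_
  have hf' := hf.ne'
  have ht : t ≠ 0 := by linarith
  unfold PP
  generalize f1 t = F at hf' ⊢
  generalize VV t = V
  generalize (t * (π / 2)) * (nf (t * (π / 2)) / sin (t * (π / 2)) ^ 4) = A
  generalize (t * ψ) * (nf (t * ψ) / sin (t * ψ) ^ 4) = B
  generalize Ef (t * (π / 2)) = C
  generalize Ef (t * ψ) = D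
  field_simp
  ring

theorem ff_smono (b : ℝ) (hb2 : b < 2) : StrictMonoOn ff (Ioc 1 b) := by
  apply strictMonoOn_of_deriv_pos (convex_Ioc 1 b)
  · intro x hx
    exact (ff_deriv x (facts x hx.1 (by linarith [hx.2])).1.ne').continuousAt.continuousWithinAt
  · intro x hx
    rw [interior_Ioc] at hx
    rw [(ff_deriv x (facts x hx.1 (by linarith [hx.2])).1.ne').deriv]
    exact f1_pos x hx.1 (by linarith [hx.2])

/-- `K ≤ 0` -/
theorem KK_le (ψ b : ℝ) (hψ : 0 < ψ) (hb : b * ψ = π - b * (π / 2)) (hb2 : b < 2) (t : ℝ)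
    (h1 : 1 < t) (htb : t ≤ b) : DD ψ t - (ff b - ff t) * rr ψ t ≤ 0 := by
  have h1b : 1 < b := by linarith
  have hder : ∀ x, 1 < x → x ≤ b → HasDerivAt (fun t => DD ψ t - (ff b - ff t) * rr ψ t)
      (-(ff b - ff x) * (2 * (((x * (π / 2)) * (nf (x * (π / 2)) / sin (x * (π / 2)) ^ 4)
        - (x * ψ) * (nf (x * ψ) / sin (x * ψ) ^ 4))
        - VV x * (Ef (x * (π / 2)) - Ef (x * ψ))) / f1 x)) x := by
    intro x hx hxb
    obtain ⟨hs, hc⟩ := facts x hx (by linarith)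
    obtain ⟨g1, g2, g3, g4⟩ := sinψ_pos ψ b x hψ hx hb hb2 hxb
    have hf := f1_pos x hx (by linarith)
    have e1 := (DD_deriv ψ x hs.ne' g4.ne').sub
      (((ff_deriv x hs.ne').const_sub (ff b)).mul (rr_deriv ψ x hx (by linarith) g4.ne'))
    refine HasDerivAt.congr_deriv e1 ?_
    unfold rr
    have hf' := hf.ne'
    field_simp
    ring
  have hm : MonotoneOn (fun t => DD ψ t - (ff b - ff t) * rr ψ t) (Ioc 1 b) := by
    apply monotoneOn_of_deriv_nonneg (convex_Ioc 1 b)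
    · exact fun x hx => (hder x hx.1 hx.2).continuousAt.continuousWithinAt
    · intro x hx
      rw [interior_Ioc] at hx
      exact (hder x hx.1 hx.2.le).differentiableAt.differentiableWithinAt
    · intro x hx
      rw [interior_Ioc] at hx
      rw [(hder x hx.1 hx.2.le).deriv]
      obtain ⟨g1, g2, g3, g4⟩ := sinψ_pos ψ b x hψ hx.1 hb hb2 hx.2.le
      have hf := f1_pos x hx.1 (by linarith [hx.2])
      have hI := mainI ψ x hx.1 (by linarith [hx.2]) hψ g2
      have hN : ff x ≤ ff b := ((ff_smono b hb2) ⟨hx.1, hx.2.le⟩ ⟨h1b, le_refl b⟩ hx.2).le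
      have hle : 2 * (((x * (π / 2)) * (nf (x * (π / 2)) / sin (x * (π / 2)) ^ 4)
        - (x * ψ) * (nf (x * ψ) / sin (x * ψ) ^ 4))
        - VV x * (Ef (x * (π / 2)) - Ef (x * ψ))) / f1 x ≤ 0 := by
        apply div_nonpos_of_nonpos_of_nonneg _ hf.le
        linarith
      have : 0 ≤ (ff b - ff x) * -(2 * (((x * (π / 2)) * (nf (x * (π / 2)) / sin (x * (π / 2)) ^ 4)
        - (x * ψ) * (nf (x * ψ) / sin (x * ψ) ^ 4))
        - VV x * (Ef (x * (π / 2)) - Ef (x * ψ))) / f1 x) :=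
        mul_nonneg (by linarith) (by linarith)
      linarith
  have h0 : DD ψ b - (ff b - ff b) * rr ψ b = 0 := by
    unfold DD
    rw [hb, sin_pi_sub]
    ring
  have := hm ⟨h1, htb⟩ ⟨h1b, le_refl b⟩ htb
  simp only [h0] at this
  exact this

theorem DD_pos (ψ b : ℝ) (hψ : 0 < ψ) (hb : b * ψ = π - b * (π / 2)) (hb2 : b < 2) (t : ℝ)
    (h1 : 1 < t) (htb : t < b) : 0 < DD ψ t := by
  obtain ⟨hs, hc⟩ := facts t h1 (by linarith)
  obtain ⟨g1, g2, g3, g4⟩ := sinψ_pos ψ b t hψ h1 hb hb2 htb.le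
  have hp := pi_pos
  have hlt : t * ψ < π - t * (π / 2) := by nlinarith
  have h2 : sin (t * ψ) < sin (t * (π / 2)) := by
    rw [← sin_pi_sub (t * (π / 2))]
    apply sin_lt_sin_of_lt_of_le_pi_div_two (by linarith) _ hlt
    nlinarith
  unfold DD
  have h3 : t ^ 2 / sin (t * (π / 2)) ^ 2 < t ^ 2 / sin (t * ψ) ^ 2 := by
    apply div_lt_div_of_pos_left (by positivity) (by positivity)
    exact pow_lt_pow_left₀ h2 g4.le two_ne_zero
  linarith

/-- **GMON, pure form** -/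
theorem gmono (ψ b : ℝ) (hψ : 0 < ψ) (hb : b * ψ = π - b * (π / 2)) (hb2 : b < 2) :
    MonotoneOn (fun t => (ff b - ff t) / DD ψ t) (Ioo 1 b) := by
  have hder : ∀ x, 1 < x → x < b → HasDerivAt (fun t => (ff b - ff t) / DD ψ t)
      (-(f1 x * (DD ψ x - (ff b - ff x) * rr ψ x)) / DD ψ x ^ 2) x := by
    intro x hx hxb
    obtain ⟨hs, hc⟩ := facts x hx (by linarith)
    obtain ⟨g1, g2, g3, g4⟩ := sinψ_pos ψ b x hψ hx hb hb2 hxb.le
    have hf := f1_pos x hx (by linarith)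
    have hD := DD_pos ψ b hψ hb hb2 x hx hxb
    have e1 := ((ff_deriv x hs.ne').const_sub (ff b)).div (DD_deriv ψ x hs.ne' g4.ne') hD.ne'
    refine HasDerivAt.congr_deriv e1 ?_
    unfold rr
    have hf' := hf.ne'
    have hD' := hD.ne'
    field_simp
    ring
  apply monotoneOn_of_deriv_nonneg (convex_Ioo 1 b)
  · exact fun x hx => (hder x hx.1 hx.2).continuousAt.continuousWithinAt
  · intro x hx
    rw [interior_Ioo] at hx
    exact (hder x hx.1 hx.2).differentiableAt.differentiableWithinAt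
  · intro x hx
    rw [interior_Ioo] at hx
    rw [(hder x hx.1 hx.2).deriv]
    have hf := f1_pos x hx.1 (by linarith [hx.2])
    have hK := KK_le ψ b hψ hb hb2 x hx.1 hx.2.le
    have : 0 ≤ f1 x * -(DD ψ x - (ff b - ff x) * rr ψ x) := mul_nonneg hf.le (by linarith)
    apply div_nonneg _ (sq_nonneg _)
    linarith

end Pool.Agent.QUD.H63
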