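import Pool.Agent.Helper63_QUD.Gm3
import Pool.Agent.Helper5_PM.M136

/-!
# QUD (MP_5b0138_an): monotonicity of `G` in the library form, and the lemma STAR (helper63)
-/

set_option autoImplicit false

namespace Pool.Agent.QUD.H63

open Real Set Pool.Agent.AEU Pool.Agent.AEU.H12 Pool.Agent.XQ Pool.Agent.XQ.U

theorem FA_eq (t : ℝ) (h1 : 1 < t) (h2 : t < 2) : FA t = ff t := by
  obtain ⟨hs, hc⟩ := facts t h1 h2
  unfold FA CC ff
  have e1 : t * π = 2 * (t * (π / 2)) := by ring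
  rw [e1, sin_two_mul, cos_two_mul]
  have hsc := sin_sq_add_cos_sq (t * (π / 2))
  have e2 : 1 - (2 * cos (t * (π / 2)) ^ 2 - 1) = 2 * sin (t * (π / 2)) ^ 2 := by linarith
  rw [e2]
  have hs' := hs.ne'
  generalize sin (t * (π / 2)) = s at hs' ⊢
  generalize cos (t * (π / 2)) = c
  rw [div_eq_div_iff (by positivity) (by positivity)]
  ring

theorem FR_zb (b t : ℝ) (hb1 : 1 < b) (hb2 : b < 2) :
    FR t (zb b) = t / 2 * (-sin (t * π)) / (cos (2 * t * (π / b - π / 2)) - cos (t * π)) := by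
  have hp := pi_pos
  have h1 : π / 2 < π / b := by
    apply div_lt_div_of_pos_left hp (by linarith) hb2
  have h2 : π / b < π := by
    rw [div_lt_iff₀ (by linarith)]
    nlinarith
  have h3 : √(zb b) = sin (π / b - π / 2) := by
    unfold zb
    rw [sqrt_sq_eq_abs, sin_sub_pi_div_two, abs_of_neg]
    exact cos_neg_of_pi_div_two_lt_of_lt h1 (by linarith)
  have h4 : arcsin (√(zb b)) = π / b - π / 2 := by
    rw [h3, arcsin_sin] <;> linarith
  unfold FR
  rw [if_pos (by unfold zb; positivity), h4]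

theorem FR_zero (t : ℝ) : FR t 0 = t / 2 * (-sin (t * π)) / (1 - cos (t * π)) := by
  unfold FR
  rw [if_pos (le_refl _)]
  simp

theorem Del_eq (b t : ℝ) (hb1 : 1 < b) (hb2 : b < 2) (h1 : 1 < t) (h2 : t < b) :
    Del b t = FA t / DD (π / b - π / 2) t := by
  have hp := pi_pos
  have hψ : 0 < π / b - π / 2 := by
    have : π / 2 < π / b := by apply div_lt_div_of_pos_left hp (by linarith) hb2
    linarith
  have hb : b * (π / b - π / 2) = π - b * (π / 2) := by
    field_simp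
  have hD := DD_pos _ b hψ hb hb2 t h1 h2
  obtain ⟨hs, hc⟩ := facts t h1 (by linarith)
  obtain ⟨g1, g2, g3, g4⟩ := sinψ_pos _ b t hψ h1 hb hb2 h2.le
  rw [FA_eq t h1 (by linarith)]
  unfold Del
  rw [FR_zb b t hb1 hb2, FR_zero]
  set ψ := π / b - π / 2 with hψdef
  have e0 : 2 * t * ψ = 2 * (t * ψ) := by ring
  have e1 : t * π = 2 * (t * (π / 2)) := by ring
  rw [e0, e1, sin_two_mul, cos_two_mul, cos_two_mul]
  have hsc := sin_sq_add_cos_sq (t * (π / 2))
  have hsc2 := sin_sq_add_cos_sq (t * ψ)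
  have e2 : 1 - (2 * cos (t * (π / 2)) ^ 2 - 1) = 2 * sin (t * (π / 2)) ^ 2 := by linarith
  have e3 : (2 * cos (t * ψ) ^ 2 - 1) - (2 * cos (t * (π / 2)) ^ 2 - 1)
      = 2 * (sin (t * (π / 2)) ^ 2 - sin (t * ψ) ^ 2) := by linarith
  rw [e2, e3]
  unfold DD at hD ⊢
  unfold ff
  have h5 : t ^ 2 / sin (t * ψ) ^ 2 - t ^ 2 / sin (t * (π / 2)) ^ 2
        = t ^ 2 * (sin (t * (π / 2)) ^ 2 - sin (t * ψ) ^ 2)
          / (sin (t * ψ) ^ 2 * sin (t * (π / 2)) ^ 2) := by
    rw [div_sub_div _ _ (pow_ne_zero 2 g4.ne') (pow_ne_zero 2 hs.ne')]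
    congr 1
    ring
  have hd : 0 < sin (t * (π / 2)) ^ 2 - sin (t * ψ) ^ 2 := by
    rw [h5] at hD
    by_contra hcon
    push Not at hcon
    have : t ^ 2 * (sin (t * (π / 2)) ^ 2 - sin (t * ψ) ^ 2)
          / (sin (t * ψ) ^ 2 * sin (t * (π / 2)) ^ 2) ≤ 0 := by
      apply div_nonpos_of_nonpos_of_nonneg _ (by positivity)
      exact mul_nonpos_of_nonneg_of_nonpos (by positivity) hcon
    linarith
  rw [h5]
  have hs' := hs.ne'
  have hx' := g4.ne'
  have hd' := hd.ne'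
  have ht' : t ≠ 0 := by linarith
  generalize sin (t * (π / 2)) = s at hs' hd' ⊢
  generalize cos (t * (π / 2)) = c
  generalize sin (t * ψ) = x at hx' hd' ⊢
  field_simp
  ring

/-- **GMON** -/
theorem gmon (b : ℝ) (hb : b ∈ Ioo (1 : ℝ) 2) :
    MonotoneOn (fun t => Del b t / FA t * (1 - FA t / FA b)) (Ioo 1 b) := by
  have hp := pi_pos
  have hψ : 0 < π / b - π / 2 := by
    have : π / 2 < π / b := by apply div_lt_div_of_pos_left hp (by linarith [hb.1]) hb.2
    linarith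
  have hb' : b * (π / b - π / 2) = π - b * (π / 2) := by
    have : b ≠ 0 := by linarith [hb.1]
    field_simp
  have hm := gmono _ b hψ hb' hb.2
  have hfb : 0 < ff b := by
    obtain ⟨hs, hc⟩ := facts b hb.1 hb.2
    unfold ff
    have := hb.1
    positivity
  have key : ∀ t ∈ Ioo 1 b, Del b t / FA t * (1 - FA t / FA b)
      = (ff b - ff t) / DD (π / b - π / 2) t / ff b := by
    intro t ht
    have hD := DD_pos _ b hψ hb' hb.2 t ht.1 ht.2
    have hft : 0 < ff t := by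
      obtain ⟨hs, hc⟩ := facts t ht.1 (by linarith [hb.2, ht.2])
      unfold ff
      have := ht.1
      positivity
    rw [Del_eq b t hb.1 hb.2 ht.1 ht.2, FA_eq t ht.1 (by linarith [hb.2, ht.2]),
      FA_eq b hb.1 hb.2]
    have := hD.ne'
    have h2 := hft.ne'
    have h3 := hfb.ne'
    field_simp
  intro x hx y hy hxy
  simp only
  rw [key x hx, key y hy]
  exact div_le_div_of_nonneg_right (hm hx hy hxy) hfb.le

theorem FA_pos (t : ℝ) (h1 : 1 < t) (h2 : t < 2) : 0 < FA t := by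
  rw [FA_eq t h1 h2]
  obtain ⟨hs, hc⟩ := facts t h1 h2
  unfold ff
  positivity

theorem FA_lt (x y : ℝ) (h1 : 1 < x) (hxy : x < y) (h2 : y < 2) : FA x < FA y := by
  rw [FA_eq x h1 (by linarith), FA_eq y (by linarith) h2]
  exact ff_smono y h2 ⟨h1, hxy.le⟩ ⟨by linarith, le_refl y⟩ hxy

theorem Del_pos (b t : ℝ) (hb1 : 1 < b) (hb2 : b < 2) (h1 : 1 < t) (h2 : t < b) : 0 < Del b t := by
  have hp := pi_pos
  have hψ : 0 < π / b - π / 2 := by
    have : π / 2 < π / b := by apply div_lt_div_of_pos_left hp (by linarith) hb2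
    linarith
  have hb : b * (π / b - π / 2) = π - b * (π / 2) := by
    field_simp
  rw [Del_eq b t hb1 hb2 h1 h2]
  exact div_pos (FA_pos t h1 (by linarith)) (DD_pos _ b hψ hb hb2 t h1 h2)

/-- **STAR** -/
theorem star (b x y z : ℝ) (hb : b ∈ Ioo (1 : ℝ) 2) (hx : x ∈ Ioo 1 b) (hy : y ∈ Ioo 1 x)
    (hz : z ∈ Ioo 1 x) (hzy : z ≤ y) (hD : Del b y + Del b z = Del b x) :
    FA x * (FA b + FA z) ≤ FA b * (FA y + FA z) := by
  have hyb : y ∈ Ioo 1 b := ⟨hy.1, hy.2.trans hx.2⟩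
  have hzb : z ∈ Ioo 1 b := ⟨hz.1, hz.2.trans hx.2⟩
  have hm := gmon b hb
  have gzy := hm hzb hyb hzy
  have gyx := hm hyb hx hy.2.le
  simp only at gzy gyx
  have pb := FA_pos b hb.1 hb.2
  have px := FA_pos x hx.1 (hx.2.trans hb.2)
  have py := FA_pos y hyb.1 (hyb.2.trans hb.2)
  have pz := FA_pos z hzb.1 (hzb.2.trans hb.2)
  have lx := FA_lt x b hx.1 hx.2 hb.2
  have ly := FA_lt y b hyb.1 hyb.2 hb.2
  have lz := FA_lt z b hzb.1 hzb.2 hb.2
  have lzy : FA z ≤ FA y := by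
    rcases eq_or_lt_of_le hzy with h | h
    · rw [h]
    · exact (FA_lt z y hz.1 h (hyb.2.trans hb.2)).le
  have dx := Del_pos b x hb.1 hb.2 hx.1 hx.2
  have dy := Del_pos b y hb.1 hb.2 hyb.1 hyb.2
  have dz := Del_pos b z hb.1 hb.2 hzb.1 hzb.2
  -- abstract the real numbers
  generalize FA b = B at *
  generalize FA x = X at *
  generalize FA y = Y at *
  generalize FA z = Z at *
  generalize Del b x = p at *
  generalize Del b y = q at *
  generalize Del b z = r at *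
  -- `G_t = (Del t / FA t) (1 - FA t/B)`, so `Del t = G_t FA t B / (B - FA t)`
  have e1 : q / Y * (1 - Y / B) = q * (B - Y) / (Y * B) := by field_simp
  have e2 : r / Z * (1 - Z / B) = r * (B - Z) / (Z * B) := by field_simp
  have e3 : p / X * (1 - X / B) = p * (B - X) / (X * B) := by field_simp
  rw [e1, e2] at gzy
  rw [e1, e3] at gyx
  rw [div_le_div_iff₀ (by positivity) (by positivity)] at gzy gyx
  -- `q (B - Y) X ≤ p (B - X) Y`, `r (B - Z) Y ≤ q (B - Y) Z`
  have k1 : q * ((B - Y) * X) ≤ p * ((B - X) * Y) := by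
    have : q * (B - Y) * (X * B) ≤ p * (B - X) * (Y * B) := gyx
    have h : B * (q * ((B - Y) * X)) ≤ B * (p * ((B - X) * Y)) := by nlinarith
    exact le_of_mul_le_mul_left h pb
  have k2 : r * ((B - Z) * Y) ≤ q * ((B - Y) * Z) := by
    have h : B * (r * ((B - Z) * Y)) ≤ B * (q * ((B - Y) * Z)) := by nlinarith
    exact le_of_mul_le_mul_left h pb
  have k3 : r * ((B - Z) * X) ≤ p * ((B - X) * Z) := by
    have h : Y * (r * ((B - Z) * X)) ≤ Y * (p * ((B - X) * Z)) := by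
      have h1 : Y * (r * ((B - Z) * X)) ≤ X * (q * ((B - Y) * Z)) := by nlinarith
      have h2 : X * (q * ((B - Y) * Z)) ≤ Y * (p * ((B - X) * Z)) := by nlinarith
      linarith
    exact le_of_mul_le_mul_left h py
  -- `u_x (u_y + u_z) ≥ u_y u_z` in the form
  have hBX : 0 < B - X := by linarith
  have hBY : 0 < B - Y := by linarith
  have hBZ : 0 < B - Z := by linarith
  have key : (B - Y) * (B - Z) * X ≤ (B - X) * (Y * (B - Z) + Z * (B - Y)) := by
    have h1 : q * ((B - Y) * X) * (B - Z) ≤ p * ((B - X) * Y) * (B - Z) :=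
      mul_le_mul_of_nonneg_right k1 hBZ.le
    have h2 : r * ((B - Z) * X) * (B - Y) ≤ p * ((B - X) * Z) * (B - Y) :=
      mul_le_mul_of_nonneg_right k3 hBY.le
    have h3 : p * ((B - Y) * (B - Z) * X) ≤ p * ((B - X) * (Y * (B - Z) + Z * (B - Y))) := by
      rw [← hD] at h1 h2 ⊢
      nlinarith
    exact le_of_mul_le_mul_left h3 dx
  -- final: multiply
  -- `B (Y + Z) - X (B + Z) ≥ 0`
  have f1 : 0 ≤ Y - Z := by linarith
  by_contra hcon
  push Not at hcon
  nlinarith [mul_nonneg f1 hBX.le, mul_nonneg f1 hBY.le, mul_nonneg f1 hBZ.le, mul_pos hBX hBY,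
    mul_pos hBX hBZ, mul_pos hBY hBZ, mul_pos px pz, mul_pos py pz]

end Pool.Agent.QUD.H63
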